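import Pool.Agent.X239.OP.Fam

/-! MP_633541_co, Q1: full answer, `OP(3, s, s)` has a solution for every `s ≥ 3`. -/

namespace Pool.Agent.Results.MP_633541_co.AllS

open SimpleGraph

/-- `C_3 ⊔ C_s ⊔ C_s`, the seating at tables of sizes `3, s, s`. -/
abbrev Tables (s : ℕ) : SimpleGraph (Fin 3 ⊕ (Fin s ⊕ Fin s)) :=
  cycleGraph 3 ⊕g (cycleGraph s ⊕g cycleGraph s)

/-- **Q1 answered: all `s ≥ 3`.** For every `s ≥ 3` the edges of the complete graph on `2 s + 3`
vertices are partitioned into `s + 1` spanning subgraphs, each isomorphic to the disjoint union of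
a triangle and two cycles of length `s`. -/
theorem result : ∀ s : ℕ, 3 ≤ s →
    ∃ F : Fin (s + 1) → SimpleGraph (Fin (2 * s + 3)),
      (∀ i, Nonempty (F i ≃g Tables s)) ∧ ∀ u v, u ≠ v → ∃! i, (F i).Adj u v :=
  Pool.Agent.X239.OP.all

end Pool.Agent.Results.MP_633541_co.AllS
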